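import Pool.Agent.Helper32.PP.Base

set_option autoImplicit false

/-!
# Towers of length 𝔠 meeting 𝔠 many tasks
-/

namespace Pool.Agent.H32.PP

open Set Cardinal

/-- Well-founded recursion with an invariant: if at each stage, whenever the earlier values
satisfy `Q`, a new value can be found, then there is a function satisfying `Q` everywhere. -/
theorem wf_rec {ι X : Type} [Nonempty X] (r : ι → ι → Prop) (hr : WellFounded r)
    (Q : (a : ι) → ((b : ι) → r b a → X) → X → Prop)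
    (hQ : ∀ (a : ι) (f : ι → X), (∀ b, r b a → Q b (fun c _ => f c) (f b)) →
      ∃ x, Q a (fun c _ => f c) x) :
    ∃ f : ι → X, ∀ a, Q a (fun c _ => f c) (f a) := by
  classical
  let F : (a : ι) → ((b : ι) → r b a → X) → X := fun a g =>
    if h : ∃ x, Q a g x then Classical.choose h else Classical.arbitrary X
  let f : ι → X := hr.fix F
  have hf : ∀ a, f a = F a (fun c _ => f c) := fun a => hr.fix_eq F a
  refine ⟨f, fun a => ?_⟩
  induction a using hr.induction with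
  | _ a ih =>
    have hex := hQ a f ih
    have h1 : f a = Classical.choose hex := by
      rw [hf a]
      simp only [F]
      rw [dif_pos hex]
    rw [h1]
    exact Classical.choose_spec hex

/-- The index type of length `𝔠`. -/
abbrev CI : Type := (𝔠 : Cardinal.{0}).ord.ToType

theorem mk_CI : #CI = 𝔠 := by simp [CI]

theorem mk_Iio_CI (a : CI) : #(Set.Iio a) < 𝔠 := by
  have := Cardinal.mk_Iio_toType_ord_lt (c := 𝔠) a
  simpa using this

theorem CI_bdd (hMA : MAsc) {I : Type} (hI : #I < 𝔠) (a : I → CI) : ∃ b : CI, ∀ i, a i ≤ b := by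
  by_contra hcon
  push Not at hcon
  have hcof : IsCofinal (Set.range a) := by
    intro b
    obtain ⟨i, hi⟩ := hcon b
    exact ⟨a i, ⟨i, rfl⟩, hi.le⟩
  have h1 : Order.cof CI ≤ #(Set.range a) := Order.cof_le hcof
  have h2 : #(Set.range a) < 𝔠 := lt_of_le_of_lt Cardinal.mk_range_le hI
  have h3 : Order.cof CI = 𝔠 := by
    rw [Ordinal.cof_toType]; exact (continuum_isRegular hMA).cof_ord
  rw [h3] at h1
  exact absurd h1 (not_le.2 h2)

/-- Every index type of size `< 𝔠` is a quotient of an initial segment of `CI` (if nonempty). -/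
theorem exists_surj_Iio (hMA : MAsc) {I : Type} [Nonempty I] (hI : #I < 𝔠) :
    ∃ b : CI, ∃ g : Set.Iio b → I, Function.Surjective g := by
  have h1 : #I ≤ #CI := by rw [mk_CI]; exact hI.le
  obtain ⟨f⟩ := Cardinal.le_def _ _ |>.1 h1
  obtain ⟨b, hb⟩ := CI_bdd hMA hI f
  obtain ⟨b', hb'⟩ : ∃ b' : CI, b < b' := by
    by_contra hcon
    push Not at hcon
    -- every element is ≤ b, so CI ⊆ Iio b ∪ {b}
    have h2 : #CI ≤ #(Set.Iio b) + 1 := by
      have : (Set.univ : Set CI) = Set.Iio b ∪ {b} := by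
        ext x; simp [hcon x]
      calc #CI = #(Set.univ : Set CI) := Cardinal.mk_univ.symm
        _ = #(Set.Iio b ∪ {b} : Set CI) := by rw [this]
        _ ≤ #(Set.Iio b) + #({b} : Set CI) := Cardinal.mk_union_le _ _
        _ = #(Set.Iio b) + 1 := by simp
    rw [mk_CI] at h2
    have h3 : #(Set.Iio b) + 1 < 𝔠 :=
      Cardinal.add_lt_of_lt Cardinal.aleph0_le_continuum (mk_Iio_CI b)
        (by simpa using Cardinal.nat_lt_continuum 1)
    exact absurd h2 (not_le.2 h3)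
  let e : I → Set.Iio b' := fun i => ⟨f i, lt_of_le_of_lt (hb i) hb'⟩
  have he : Function.Injective e := by
    intro i j h
    exact f.injective (congrArg Subtype.val h)
  exact ⟨b', Function.invFun e, Function.invFun_surjective he⟩

/-- **Tower lemma.** -/
theorem exists_tower (hMA : MAsc) {Task : Type} (hT : #Task ≤ 𝔠) (R : Task → Set ℕ → Prop)
    (hR : ∀ t, ∀ T : Set ℕ, T.Infinite → ∃ T' ⊆ T, T'.Infinite ∧ R t T') :
    ∃ U : Ultrafilter ℕ, (∀ s : Set ℕ, s.Finite → s ∉ U) ∧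
      (∀ I : Type, #I < 𝔠 → ∀ A : I → Set ℕ, (∀ i, A i ∈ U) →
        ∃ B ∈ U, ∀ i, (B \ A i).Finite) ∧
      ∀ t, ∃ T ∈ U, R t T := by
  classical
  -- tasks enumeration, including ultra tasks
  have hcard : #(Task ⊕ Set ℕ) ≤ #CI := by
    rw [Cardinal.mk_sum, mk_CI]
    simp only [Cardinal.lift_id, Cardinal.mk_set]
    refine Cardinal.add_le_of_le Cardinal.aleph0_le_continuum hT ?_
    simp
  obtain ⟨enc, henc⟩ : ∃ f : (Task ⊕ Set ℕ) → CI, Function.Injective f := by
    obtain ⟨f⟩ := Cardinal.le_def _ _ |>.1 hcard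
    exact ⟨f, f.injective⟩
  let Q : (a : CI) → ((b : CI) → b < a → Set ℕ) → Set ℕ → Prop := fun a g T =>
    T.Infinite ∧ (∀ b (h : b < a), (T \ g b h).Finite) ∧
      (∀ t, enc (Sum.inl t) = a → R t T) ∧
      (∀ X : Set ℕ, enc (Sum.inr X) = a → T ⊆ X ∨ T ⊆ Xᶜ)
  obtain ⟨T, hTQ⟩ := wf_rec (ι := CI) (X := Set ℕ) (· < ·) wellFounded_lt Q (by
    intro a f hf
    -- pseudo-intersection of the previous ones
    obtain ⟨D, hDinf, hD⟩ := pseudo hMA (I := Set.Iio a) (mk_Iio_CI a) (fun b => f b) (by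
      intro F
      by_cases hF : F.Nonempty
      · obtain ⟨m, hm, hmax⟩ := F.exists_max_image id hF
        have h1 := (hf m m.2).1
        have hsub : (f m \ ⋃ b ∈ F, (f m \ f b)) ⊆ ⋂ b ∈ F, f (b : CI) := by
          intro x hx
          simp only [Set.mem_iInter]
          intro b hb
          by_contra hxb
          exact hx.2 (Set.mem_biUnion hb ⟨hx.1, hxb⟩)
        refine Set.Infinite.mono hsub (h1.sdiff ?_)
        refine Set.Finite.biUnion (Finset.finite_toSet F) fun b hb => ?_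
        rcases lt_or_eq_of_le (hmax b hb) with hlt | heq
        · exact (hf m m.2).2.1 b hlt
        · have : (b : Set.Iio a) = m := heq
          rw [this]; simp
      · rw [Finset.not_nonempty_iff_eq_empty] at hF
        subst hF
        simpa using Set.infinite_univ)
    -- meet the ultra task
    have h2 : ∃ D' ⊆ D, D'.Infinite ∧ (∀ X : Set ℕ, enc (Sum.inr X) = a → D' ⊆ X ∨ D' ⊆ Xᶜ) := by
      by_cases hX : ∃ X : Set ℕ, enc (Sum.inr X) = a
      · obtain ⟨X, hX⟩ := hX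
        have huniq : ∀ Y : Set ℕ, enc (Sum.inr Y) = a → Y = X := by
          intro Y hY
          have := henc (hY.trans hX.symm)
          simpa using this
        have : D = (D ∩ X) ∪ (D ∩ Xᶜ) := by rw [← Set.inter_union_distrib_left]; simp
        rw [this, Set.infinite_union] at hDinf
        rcases hDinf with h | h
        · exact ⟨D ∩ X, Set.inter_subset_left, h, fun Y hY => by
            rw [huniq Y hY]; exact Or.inl Set.inter_subset_right⟩
        · exact ⟨D ∩ Xᶜ, Set.inter_subset_left, h, fun Y hY => by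
            rw [huniq Y hY]; exact Or.inr Set.inter_subset_right⟩
      · exact ⟨D, subset_rfl, hDinf, fun X h => absurd ⟨X, h⟩ hX⟩
    obtain ⟨D', hD'D, hD'inf, hD'X⟩ := h2
    have h3 : ∃ D'' ⊆ D', D''.Infinite ∧ (∀ t, enc (Sum.inl t) = a → R t D'') := by
      by_cases ht : ∃ t, enc (Sum.inl t) = a
      · obtain ⟨t, ht⟩ := ht
        obtain ⟨D'', h1, h2, h3⟩ := hR t D' hD'inf
        refine ⟨D'', h1, h2, fun t' ht' => ?_⟩
        have := henc (ht'.trans ht.symm)
        simp only [Sum.inl.injEq] at this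
        rwa [this]
      · exact ⟨D', subset_rfl, hD'inf, fun t h => absurd ⟨t, h⟩ ht⟩
    obtain ⟨D'', hD''D', hD''inf, hD''t⟩ := h3
    refine ⟨D'', hD''inf, fun b hb => ?_, hD''t, fun X hX => ?_⟩
    · exact (hD ⟨b, hb⟩).subset (Set.sdiff_subset_sdiff_left (hD''D'.trans hD'D))
    · rcases hD'X X hX with h | h
      · exact Or.inl (hD''D'.trans h)
      · exact Or.inr (hD''D'.trans h))
  have hTinf : ∀ a, (T a).Infinite := fun a => (hTQ a).1
  have hTdec : ∀ a b, b ≤ a → (T a \ T b).Finite := by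
    intro a b h
    rcases h.lt_or_eq with h | h
    · exact (hTQ a).2.1 b h
    · subst h; simp
  -- the ultrafilter
  let Fil : Filter ℕ :=
    { sets := {X | ∃ a, (T a \ X).Finite}
      univ_sets := by
        have : Nonempty CI := by
          rw [← Cardinal.mk_ne_zero_iff, mk_CI]
          exact Cardinal.continuum_ne_zero
        exact ⟨Classical.arbitrary CI, by simp⟩
      sets_of_superset := by
        rintro X Y ⟨a, ha⟩ hXY
        exact ⟨a, ha.subset (Set.sdiff_subset_sdiff_right hXY)⟩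
      inter_sets := by
        rintro X Y ⟨a, ha⟩ ⟨b, hb⟩
        refine ⟨max a b, ?_⟩
        have h1 := hTdec (max a b) a (le_max_left _ _)
        have h2 := hTdec (max a b) b (le_max_right _ _)
        refine ((h1.union ha).union (h2.union hb)).subset ?_
        rintro x ⟨hx, hxn⟩
        by_cases hxX : x ∈ X
        · have hxY : x ∉ Y := fun h => hxn ⟨hxX, h⟩
          by_cases hxb : x ∈ T b
          · exact Or.inr (Or.inr ⟨hxb, hxY⟩)
          · exact Or.inr (Or.inl ⟨hx, hxb⟩)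
        · by_cases hxa : x ∈ T a
          · exact Or.inl (Or.inr ⟨hxa, hxX⟩)
          · exact Or.inl (Or.inl ⟨hx, hxa⟩) }
  have hmem : ∀ X : Set ℕ, X ∈ Fil ↔ ∃ a, (T a \ X).Finite := fun X => Iff.rfl
  have hne : Fil.NeBot := by
    rw [Filter.neBot_iff]
    intro h
    have : (∅ : Set ℕ) ∈ Fil := by rw [h]; exact Filter.mem_bot
    rw [hmem] at this
    obtain ⟨a, ha⟩ := this
    rw [Set.sdiff_empty] at ha
    exact hTinf a ha
  have hultra : ∀ X : Set ℕ, X ∈ Fil ∨ Xᶜ ∈ Fil := by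
    intro X
    rcases (hTQ (enc (Sum.inr X))).2.2.2 X rfl with h | h
    · left; rw [hmem]; exact ⟨_, by rw [Set.sdiff_eq_empty.2 h]; exact Set.finite_empty⟩
    · right; rw [hmem]; exact ⟨_, by rw [Set.sdiff_eq_empty.2 h]; exact Set.finite_empty⟩
  let U : Ultrafilter ℕ := Ultrafilter.ofComplNotMemIff Fil (by
    intro X
    constructor
    · intro h
      rcases hultra X with h' | h'
      · exact h'
      · exact absurd h' h
    · intro h h'
      have := Filter.inter_mem h h'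
      rw [Set.inter_compl_self, Filter.empty_mem_iff_bot] at this
      exact hne.ne this)
  have hmemU : ∀ X : Set ℕ, X ∈ U ↔ ∃ a, (T a \ X).Finite := fun X => Iff.rfl
  have hTU : ∀ a, T a ∈ U := fun a => by rw [hmemU]; exact ⟨a, by simp⟩
  refine ⟨U, ?_, ?_, ?_⟩
  · intro s hs hsU
    rw [hmemU] at hsU
    obtain ⟨a, ha⟩ := hsU
    exact (hTinf a) ((ha.union hs).subset fun x hx => by
      by_cases h : x ∈ s
      · exact Or.inr h
      · exact Or.inl ⟨hx, h⟩)
  · intro I hI A hA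
    choose a ha using fun i => (hmemU (A i)).1 (hA i)
    have hbdd := CI_bdd hMA hI a
    obtain ⟨b, hb⟩ := hbdd
    refine ⟨T b, hTU b, fun i => ?_⟩
    refine ((hTdec b (a i) (hb i)).union (ha i)).subset ?_
    rintro x ⟨hx, hxn⟩
    by_cases h : x ∈ T (a i)
    · exact Or.inr ⟨h, hxn⟩
    · exact Or.inl ⟨hx, h⟩
  · intro t
    exact ⟨T (enc (Sum.inl t)), hTU _, (hTQ _).2.2.1 t rfl⟩

/-- Ramsey's theorem inside a given infinite set. -/
theorem ramsey_subset {K : Type} [Finite K] (c : ℕ → ℕ → K) (T : Set ℕ) (hT : T.Infinite) :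
    ∃ T' ⊆ T, T'.Infinite ∧ ∃ k, ∀ m ∈ T', ∀ n ∈ T', m < n → c m n = k := by
  classical
  have hne : (Filter.cofinite ⊓ Filter.principal T).NeBot := by
    rw [Filter.inf_principal_neBot_iff]
    intro U hU
    rw [Filter.mem_cofinite] at hU
    have := hT.sdiff hU
    obtain ⟨x, hx⟩ := this.nonempty
    exact ⟨x, by_contra fun h => hx.2 h, hx.1⟩
  let W : Ultrafilter ℕ := Ultrafilter.of (Filter.cofinite ⊓ Filter.principal T)
  have hW : (W : Filter ℕ) ≤ Filter.cofinite ⊓ Filter.principal T := Ultrafilter.of_le _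
  have hWT : T ∈ W := hW (Filter.mem_inf_of_right (Filter.mem_principal_self T))
  have hWcof : ∀ s : Set ℕ, s.Finite → sᶜ ∈ W := fun s hs =>
    hW (Filter.mem_inf_of_left hs.compl_mem_cofinite)
  have h1 : ∀ m, ∃ k, {n | c m n = k} ∈ W := by
    intro m
    have : (⋃ k ∈ (Set.univ : Set K), {n | c m n = k}) ∈ W := by
      have : (⋃ k ∈ (Set.univ : Set K), {n | c m n = k}) = Set.univ := by ext n; simp
      rw [this]; exact Filter.univ_mem
    rw [Ultrafilter.finite_biUnion_mem_iff Set.finite_univ] at this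
    obtain ⟨k, -, hk⟩ := this
    exact ⟨k, hk⟩
  choose b hb using h1
  have h2 : ∃ k, {m | b m = k} ∈ W := by
    have : (⋃ k ∈ (Set.univ : Set K), {n | b n = k}) ∈ W := by
      have : (⋃ k ∈ (Set.univ : Set K), {n | b n = k}) = Set.univ := by ext n; simp
      rw [this]; exact Filter.univ_mem
    rw [Ultrafilter.finite_biUnion_mem_iff Set.finite_univ] at this
    obtain ⟨k, -, hk⟩ := this
    exact ⟨k, hk⟩
  obtain ⟨k, hk⟩ := h2
  obtain ⟨f, hf1, hf2⟩ := exists_seq_of_forall_finset_exists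
    (fun m => m ∈ T ∧ b m = k) (fun m n => m < n ∧ c m n = k) (by
      intro s hs
      have : (T ∩ {m | b m = k} ∩ (⋂ m ∈ s, {n | c m n = k}) ∩ (Set.Iic (s.sup id))ᶜ) ∈ W := by
        refine Filter.inter_mem (Filter.inter_mem (Filter.inter_mem hWT hk) ?_)
          (hWcof _ (Set.finite_Iic _))
        rw [Filter.biInter_finset_mem]
        intro m hm
        have := hb m
        rwa [(hs m hm).2] at this
      obtain ⟨y, ⟨⟨hyT, hyb⟩, hyc⟩, hys⟩ := Ultrafilter.nonempty_of_mem this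
      refine ⟨y, ⟨hyT, hyb⟩, fun x hx => ⟨?_, ?_⟩⟩
      · have h3 : x ≤ s.sup id := Finset.le_sup (f := id) hx
        simp only [Set.mem_compl_iff, Set.mem_Iic, not_le] at hys
        exact lt_of_le_of_lt h3 hys
      · simp only [Set.mem_iInter] at hyc
        exact hyc x hx)
  have hmono : StrictMono f := fun m n h => (hf2 m n h).1
  refine ⟨Set.range f, ?_, Set.infinite_range_of_injective hmono.injective, k, ?_⟩
  · rintro _ ⟨n, rfl⟩; exact (hf1 n).1
  · rintro _ ⟨m, rfl⟩ _ ⟨n, rfl⟩ h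
    exact (hf2 m n (hmono.lt_iff_lt.1 h)).2

/-- Saturation step. -/
theorem sat_step (hMA : MAsc) {I : Type} (hI : #I < 𝔠) (A : I → ℕ → Set ℕ) (T : Set ℕ)
    (hT : T.Infinite) : ∃ T' ⊆ T, T'.Infinite ∧
      ((∃ F : Finset I, ∀ n ∈ T', (⋂ i ∈ F, A i n) = ∅) ∨
        ∃ f : ℕ → ℕ, ∀ i, (T' ∩ {n | f n ∉ A i n}).Finite) := by
  classical
  by_cases hF : ∃ F : Finset I, (T ∩ {n | (⋂ i ∈ F, A i n) = ∅}).Infinite
  · obtain ⟨F, hF⟩ := hF
    exact ⟨_, Set.inter_subset_left, hF, Or.inl ⟨F, fun n hn => hn.2⟩⟩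
  push Not at hF
  obtain ⟨Y, hYinf, hY⟩ := pseudo hMA (α := ℕ × ℕ) (I := I ⊕ ℕ)
    (by
      rw [Cardinal.mk_sum]
      simp only [Cardinal.lift_id, Cardinal.mk_eq_aleph0 ℕ]
      exact Cardinal.add_lt_of_lt Cardinal.aleph0_le_continuum hI Cardinal.aleph0_lt_continuum)
    (Sum.elim (fun i => {p | p.1 ∈ T ∧ p.2 ∈ A i p.1}) (fun k => {p | p.1 ∈ T ∧ k ≤ p.1})) (by
      intro F
      let F1 : Finset I := F.toLeft
      let F2 : Finset ℕ := F.toRight
      have hinf : (T ∩ {n | (⋂ i ∈ F1, A i n) ≠ ∅} ∩ Set.Ici (F2.sup id)).Infinite := by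
        have h1 : (T \ (T ∩ {n | (⋂ i ∈ F1, A i n) = ∅})).Infinite :=
          hT.sdiff (by simpa [Set.not_infinite] using hF F1)
        have h2 := h1.sdiff (Set.finite_Iio (F2.sup id))
        refine h2.mono ?_
        rintro x ⟨⟨hxT, hx1⟩, hx2⟩
        refine ⟨⟨hxT, fun h => hx1 ⟨hxT, h⟩⟩, by simpa using hx2⟩
      have hch : ∀ n ∈ (T ∩ {n | (⋂ i ∈ F1, A i n) ≠ ∅} ∩ Set.Ici (F2.sup id)),
          ∃ m, m ∈ ⋂ i ∈ F1, A i n := by
        intro n hn
        exact Set.nonempty_iff_ne_empty.2 hn.1.2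
      choose! g hg using hch
      refine Set.Infinite.mono ?_ (hinf.image (f := fun n => (n, g n)) (by
        intro a _ b _ h; exact (Prod.mk.inj h).1))
      rintro _ ⟨n, hn, rfl⟩
      have hgn := hg n hn
      simp only [Set.mem_iInter] at hgn ⊢
      rintro (i | k) hik
      · simp only [Sum.elim_inl, Set.mem_ofPred_eq]
        exact ⟨hn.1.1, hgn i (by simpa [F1] using hik)⟩
      · simp only [Sum.elim_inr, Set.mem_ofPred_eq]
        refine ⟨hn.1.1, ?_⟩
        have h3 : k ≤ F2.sup id := Finset.le_sup (f := id) (by simpa [F2] using hik)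
        exact h3.trans hn.2)
  have hex : ∀ n ∈ {n | n ∈ T ∧ ∃ m, (n, m) ∈ Y}, ∃ m, (n, m) ∈ Y := fun n hn => hn.2
  choose! f hf using hex
  refine ⟨{n | n ∈ T ∧ ∃ m, (n, m) ∈ Y}, fun n hn => hn.1, ?_, Or.inr ⟨f, fun i => ?_⟩⟩
  · refine Set.infinite_of_forall_exists_gt fun k => ?_
    have h1 := hYinf.sdiff (hY (Sum.inr (k + 1)))
    obtain ⟨⟨n, m⟩, hY1, hY2⟩ := h1.nonempty
    have h3 : n ∈ T ∧ k + 1 ≤ n := by
      by_contra hcon
      exact hY2 ⟨hY1, hcon⟩
    exact ⟨n, ⟨h3.1, m, hY1⟩, by omega⟩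
  · have := (hY (Sum.inl i)).image Prod.fst
    refine this.subset ?_
    rintro n ⟨hn, hnf⟩
    refine ⟨(n, f n), ⟨hf n hn, ?_⟩, rfl⟩
    simp only [Sum.elim_inl, Set.mem_ofPred_eq, not_and]
    intro _
    exact hnf

/-- Under MA(σ-centered): the family of all sequences of length `< 𝔠` has size `𝔠`. -/
theorem mk_tasks (hMA : MAsc) : #(Σ b : CI, (Set.Iio b → ℕ → Set ℕ)) ≤ 𝔠 := by
  rw [Cardinal.mk_sigma]
  refine (Cardinal.sum_le_mk_mul_iSup _).trans ?_
  rw [mk_CI]
  have : (⨆ b : CI, #(Set.Iio b → ℕ → Set ℕ)) ≤ 𝔠 := by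
    refine ciSup_le' fun b => ?_
    have h1 : #(ℕ → Set ℕ) = 𝔠 := by
      simp [Cardinal.mk_set]
    have h2 : ∀ I : Type, #(I → ℕ → Set ℕ) = 𝔠 ^ #I := by
      intro I
      rw [← h1]
      exact (Cardinal.power_def _ _).symm
    rw [h2]
    exact continuum_power_le hMA (mk_Iio_CI b)
  calc 𝔠 * (⨆ b : CI, #(Set.Iio b → ℕ → Set ℕ)) ≤ 𝔠 * 𝔠 := by gcongr
    _ = 𝔠 := Cardinal.mul_eq_self Cardinal.aleph0_le_continuum

/-- **The base ultrafilter**: nonprincipal, P_𝔠-point, Ramsey, with `𝔠`-saturated ultrapower. -/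
theorem exists_base (hMA : MAsc) :
    ∃ U : Ultrafilter ℕ, (∀ s : Set ℕ, s.Finite → s ∉ U) ∧
      (∀ I : Type, #I < 𝔠 → ∀ A : I → Set ℕ, (∀ i, A i ∈ U) →
        ∃ B ∈ U, ∀ i, (B \ A i).Finite) ∧
      (∀ (K : Type) [Finite K] (c : ℕ → ℕ → K), ∃ T ∈ U, ∃ k, ∀ m ∈ T, ∀ n ∈ T, m < n → c m n = k) ∧
      (∀ (I : Type), #I < 𝔠 → ∀ A : I → ℕ → Set ℕ,
        (∀ F : Finset I, ∀ᶠ n in (U : Filter ℕ), (⋂ i ∈ F, A i n).Nonempty) →
        ∃ f : ℕ → ℕ, ∀ i, ∀ᶠ n in (U : Filter ℕ), f n ∈ A i n) := by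
  classical
  let Task : Type := (Σ b : CI, (Set.Iio b → ℕ → Set ℕ)) ⊕ (Σ k : ℕ, (ℕ → ℕ → Fin k))
  let R : Task → Set ℕ → Prop := fun t T =>
    match t with
    | Sum.inl ⟨b, A⟩ => ((∃ F : Finset (Set.Iio b), ∀ n ∈ T, (⋂ i ∈ F, A i n) = ∅) ∨
        ∃ f : ℕ → ℕ, ∀ i, (T ∩ {n | f n ∉ A i n}).Finite)
    | Sum.inr ⟨k, c⟩ => ∃ j, ∀ m ∈ T, ∀ n ∈ T, m < n → c m n = j
  have hTask : #Task ≤ 𝔠 := by
    rw [Cardinal.mk_sum]
    simp only [Cardinal.lift_id]
    refine Cardinal.add_le_of_le Cardinal.aleph0_le_continuum (mk_tasks hMA) ?_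
    rw [Cardinal.mk_sigma]
    refine (Cardinal.sum_le_mk_mul_iSup _).trans ?_
    have : (⨆ k : ℕ, #(ℕ → ℕ → Fin k)) ≤ 𝔠 := by
      refine ciSup_le' fun k => ?_
      have h1 : #(ℕ → ℕ → Fin k) ≤ #(ℕ → ℕ → ℕ) :=
        Cardinal.mk_le_of_injective (f := fun c m n => ((c m n : Fin k) : ℕ)) (by
          intro c d h
          funext m n
          exact Fin.ext (congrFun (congrFun h m) n))
      refine h1.trans (le_of_eq ?_)
      simp
    calc #ℕ * (⨆ k : ℕ, #(ℕ → ℕ → Fin k)) ≤ 𝔠 * 𝔠 := by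
          gcongr
          simpa using Cardinal.aleph0_le_continuum
      _ = 𝔠 := Cardinal.mul_eq_self Cardinal.aleph0_le_continuum
  obtain ⟨U, hU1, hU2, hU3⟩ := exists_tower hMA hTask R (by
    rintro (⟨b, A⟩ | ⟨k, c⟩) T hT
    · exact sat_step hMA (mk_Iio_CI b) A T hT
    · exact ramsey_subset c T hT)
  refine ⟨U, hU1, hU2, ?_, ?_⟩
  · intro K _ c
    obtain ⟨k, ⟨e⟩⟩ := Finite.exists_equiv_fin K
    obtain ⟨T, hTU, j, hj⟩ := hU3 (Sum.inr ⟨k, fun m n => e (c m n)⟩)
    refine ⟨T, hTU, e.symm j, fun m hm n hn hmn => ?_⟩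
    rw [← hj m hm n hn hmn]; simp
  · intro I hI A hA
    by_cases hne : Nonempty I
    · obtain ⟨b, g, hg⟩ := exists_surj_Iio hMA hI
      obtain ⟨T, hTU, hT⟩ := hU3 (Sum.inl ⟨b, fun x => A (g x)⟩)
      rcases hT with ⟨F, hF⟩ | ⟨f, hf⟩
      · exfalso
        have h1 := hA (F.image g)
        have h2 : T ∩ {n | (⋂ i ∈ F.image g, A i n).Nonempty} ∈ U := Filter.inter_mem hTU h1
        obtain ⟨n, hnT, hn⟩ := Ultrafilter.nonempty_of_mem h2
        have h3 := hF n hnT
        obtain ⟨x, hx⟩ := hn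
        have : x ∈ ⋂ i ∈ F, A (g i) n := by
          simp only [Set.mem_iInter] at hx ⊢
          intro i hi
          exact hx (g i) (Finset.mem_image_of_mem g hi)
        rw [h3] at this
        exact this
      · refine ⟨f, fun i => ?_⟩
        obtain ⟨x, rfl⟩ := hg i
        have h1 := hU1 _ (hf x)
        have h2 : (T ∩ {n | f n ∉ A (g x) n})ᶜ ∈ U := Ultrafilter.compl_mem_iff_notMem.2 h1
        filter_upwards [hTU, h2] with n hn1 hn2
        by_contra hcon
        exact hn2 ⟨hn1, hcon⟩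
    · rw [not_nonempty_iff] at hne
      exact ⟨id, fun i => hne.elim i⟩

end Pool.Agent.H32.PP
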