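import Mathlib

set_option autoImplicit false

/-!
# Consequences of MA(σ-centered): Solovay's lemma, `𝔭 = 𝔠`, `2^κ = 𝔠`.
-/

namespace Pool.Agent.H32.PP

open Set Cardinal

/-- MA(σ-centered), exactly as in the frozen statement S14689. -/
def MAsc : Prop :=
  ∀ (P : Type) [Preorder P],
        (∃ C : ℕ → Set P, (⋃ n, C n) = Set.univ ∧
            ∀ n, ∀ F : Finset P, (↑F : Set P) ⊆ C n → ∃ r : P, ∀ p ∈ F, r ≤ p) →
        ∀ 𝒟 : Set (Set P), Cardinal.mk 𝒟 < Cardinal.continuum →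
          (∀ D ∈ 𝒟, ∀ p : P, ∃ q ∈ D, q ≤ p) →
          ∃ G : Set P, G.Nonempty ∧ (∀ p ∈ G, ∀ q : P, p ≤ q → q ∈ G) ∧
            (∀ p ∈ G, ∀ q ∈ G, ∃ r ∈ G, r ≤ p ∧ r ≤ q) ∧
            ∀ D ∈ 𝒟, (D ∩ G).Nonempty

/-- Conditions of the Solovay forcing. -/
structure SolCond (α I : Type) where
  s : Finset α
  F : Finset I

/-- the ordering depends on the family `A`. -/
@[reducible] def SolPre {α I : Type} (A : I → Set α) : Preorder (SolCond α I) where
  le q p := p.s ⊆ q.s ∧ p.F ⊆ q.F ∧ ∀ i ∈ p.F, ∀ x ∈ q.s, x ∉ p.s → x ∉ A i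
  le_refl p := ⟨Finset.Subset.refl _, Finset.Subset.refl _, fun _ _ _ h h' => absurd h h'⟩
  le_trans a b c hab hbc := by
    refine ⟨hbc.1.trans hab.1, hbc.2.1.trans hab.2.1, fun i hi x hx hxc => ?_⟩
    by_cases hxb : x ∈ b.s
    · exact hbc.2.2 i hi x hxb hxc
    · exact hab.2.2 i (hbc.2.1 hi) x hx hxb

/-- Solovay's lemma. -/
theorem solovay (hMA : MAsc) {α : Type} [Countable α] {I J : Type}
    (hI : #I < 𝔠) (hJ : #J < 𝔠) (A : I → Set α) (B : J → Set α)
    (hAB : ∀ j, ∀ F : Finset I, (B j \ ⋃ i ∈ F, A i).Infinite) :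
    ∃ D : Set α, (∀ i, (D ∩ A i).Finite) ∧ (∀ j, (D ∩ B j).Infinite) := by
  classical
  obtain ⟨enc, henc⟩ := Countable.exists_injective_nat α
  let _ : Preorder (SolCond α I) := SolPre A
  have hle : ∀ q p : SolCond α I, q ≤ p ↔
      p.s ⊆ q.s ∧ p.F ⊆ q.F ∧ ∀ i ∈ p.F, ∀ x ∈ q.s, x ∉ p.s → x ∉ A i := fun q p => Iff.rfl
  -- sigma-centered
  have hcent : ∃ C : ℕ → Set (SolCond α I), (⋃ n, C n) = Set.univ ∧
      ∀ n, ∀ F : Finset (SolCond α I), (↑F : Set (SolCond α I)) ⊆ C n →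
        ∃ r : SolCond α I, ∀ p ∈ F, r ≤ p := by
    obtain ⟨e, he⟩ := Countable.exists_injective_nat (Finset α)
    refine ⟨fun n => {p | e p.s = n}, ?_, ?_⟩
    · ext p; simp
    · intro n F hF
      by_cases hFe : F.Nonempty
      · obtain ⟨p0, hp0⟩ := hFe
        refine ⟨⟨p0.s, F.biUnion (fun p => p.F)⟩, fun p hp => ?_⟩
        have hs : p.s = p0.s := he ((hF hp).trans (hF hp0).symm)
        rw [hle]
        refine ⟨by simp [hs], fun i hi => Finset.mem_biUnion.2 ⟨p, hp, hi⟩, ?_⟩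
        intro i _ x hx hx'
        exact absurd (by simpa [hs] using hx) hx'
      · rw [Finset.not_nonempty_iff_eq_empty] at hFe
        subst hFe
        exact ⟨⟨∅, ∅⟩, by simp⟩
  -- dense sets
  let D1 : I → Set (SolCond α I) := fun i => {p | i ∈ p.F}
  let D2 : J × ℕ → Set (SolCond α I) := fun jn => {p | ∃ x ∈ p.s, x ∈ B jn.1 ∧ jn.2 ≤ enc x}
  let 𝒟 : Set (Set (SolCond α I)) := Set.range (Sum.elim D1 D2)
  have h𝒟card : #𝒟 < 𝔠 := by
    refine lt_of_le_of_lt Cardinal.mk_range_le ?_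
    rw [Cardinal.mk_sum]
    simp only [Cardinal.lift_id, Cardinal.mk_prod, Cardinal.mk_eq_aleph0 ℕ]
    refine Cardinal.add_lt_of_lt Cardinal.aleph0_le_continuum hI ?_
    refine Cardinal.mul_lt_of_lt Cardinal.aleph0_le_continuum hJ Cardinal.aleph0_lt_continuum
  have hdense : ∀ D ∈ 𝒟, ∀ p : SolCond α I, ∃ q ∈ D, q ≤ p := by
    rintro D ⟨(i | ⟨j, n⟩), rfl⟩ p
    · refine ⟨⟨p.s, insert i p.F⟩, by simp [D1], ?_⟩
      rw [hle]
      exact ⟨Finset.Subset.refl _, Finset.subset_insert _ _, fun _ _ _ h h' => absurd h h'⟩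
    · have hinf := hAB j p.F
      have : ∃ x ∈ B j \ ⋃ i ∈ p.F, A i, n ≤ enc x := by
        by_contra hcon
        push Not at hcon
        apply hinf
        have : enc '' (B j \ ⋃ i ∈ p.F, A i) ⊆ Set.Iio n := by
          rintro _ ⟨x, hx, rfl⟩; exact hcon x hx
        exact Set.Finite.of_finite_image ((Set.finite_Iio n).subset this) henc.injOn
      obtain ⟨x, hx, hxn⟩ := this
      refine ⟨⟨insert x p.s, p.F⟩, ?_, ?_⟩
      · simp only [Sum.elim_inr, D2, Set.mem_ofPred_eq]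
        exact ⟨x, Finset.mem_insert_self _ _, hx.1, hxn⟩
      · rw [hle]
        refine ⟨Finset.subset_insert _ _, Finset.Subset.refl _, ?_⟩
        intro i hi y hy hy'
        rcases Finset.mem_insert.1 hy with rfl | hy
        · intro hyA
          exact hx.2 (Set.mem_biUnion hi hyA)
        · exact absurd hy hy'
  obtain ⟨G, hGne, hGup, hGdir, hGD⟩ := hMA (SolCond α I) hcent 𝒟 h𝒟card hdense
  refine ⟨{x | ∃ p ∈ G, x ∈ p.s}, ?_, ?_⟩
  · intro i
    obtain ⟨p, hpD, hpG⟩ := hGD (D1 i) ⟨Sum.inl i, rfl⟩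
    refine (Finset.finite_toSet p.s).subset ?_
    rintro x ⟨⟨q, hqG, hxq⟩, hxA⟩
    by_contra hxp
    obtain ⟨r, hrG, hrp, hrq⟩ := hGdir p hpG q hqG
    rw [hle] at hrp hrq
    exact hrp.2.2 i hpD x (hrq.1 hxq) hxp hxA
  · intro j
    have : ∀ n, ∃ x, (∃ p ∈ G, x ∈ p.s) ∧ x ∈ B j ∧ n ≤ enc x := by
      intro n
      obtain ⟨p, hpD, hpG⟩ := hGD (D2 (j, n)) ⟨Sum.inr (j, n), rfl⟩
      obtain ⟨x, hx, hxB, hxn⟩ := hpD
      exact ⟨x, ⟨p, hpG, hx⟩, hxB, hxn⟩
    intro hfin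
    have himg : (enc '' ({x | ∃ p ∈ G, x ∈ p.s} ∩ B j)).Finite := hfin.image _
    obtain ⟨N, hN⟩ := himg.bddAbove
    obtain ⟨x, hx, hxB, hxn⟩ := this (N + 1)
    have := hN ⟨x, ⟨hx, hxB⟩, rfl⟩
    omega

/-- `𝔭 = 𝔠`: every family of fewer than `𝔠` subsets of a countable set with the strong finite
intersection property has an infinite pseudo-intersection. -/
theorem pseudo (hMA : MAsc) {α : Type} [Countable α] {I : Type}
    (hI : #I < 𝔠) (A : I → Set α) (hA : ∀ F : Finset I, (⋂ i ∈ F, A i).Infinite) :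
    ∃ D : Set α, D.Infinite ∧ ∀ i, (D \ A i).Finite := by
  obtain ⟨D, hD1, hD2⟩ := solovay hMA (J := Unit) hI
    (by simpa using (Cardinal.nat_lt_continuum 1)) (fun i => (A i)ᶜ) (fun _ => Set.univ) (by
      intro _ F
      have : ((Set.univ : Set α) \ ⋃ i ∈ F, (A i)ᶜ) = ⋂ i ∈ F, A i := by
        ext x; simp
      rw [this]; exact hA F)
  refine ⟨D, by simpa using hD2 (), fun i => ?_⟩
  have := hD1 i
  rwa [Set.sdiff_eq]

/-- The standard almost disjoint family indexed by `ℕ → Bool`. -/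
def adSet (x : ℕ → Bool) : Set (List Bool) := Set.range (fun n => (List.ofFn (fun i : Fin n => x i)))

theorem adSet_infinite (x : ℕ → Bool) : (adSet x).Infinite := by
  apply Set.infinite_range_of_injective
  intro m n h
  have := congrArg List.length h
  simpa using this

theorem adSet_inter {x y : ℕ → Bool} (h : x ≠ y) : (adSet x ∩ adSet y).Finite := by
  obtain ⟨k, hk⟩ := Function.ne_iff.1 h
  refine ((Set.finite_Iic k).image (fun n => (List.ofFn (fun i : Fin n => x i)))).subset ?_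
  rintro _ ⟨⟨m, rfl⟩, ⟨n, hn⟩⟩
  refine ⟨m, ?_, rfl⟩
  have hmn : n = m := by simpa using congrArg List.length hn
  subst hmn
  simp only [Set.mem_Iic]
  by_contra hlt
  push Not at hlt
  apply hk
  have := List.ofFn_injective hn
  exact (congrFun this ⟨k, hlt⟩).symm

/-- `2 ^ κ = 𝔠` for infinite `κ < 𝔠` (we only state `≤`). -/
theorem two_power_le (hMA : MAsc) {I : Type} (hI : #I < 𝔠) : (2 : Cardinal.{0}) ^ #I ≤ 𝔠 := by
  classical
  -- embed I in ℕ → Bool
  have hc : #(ℕ → Bool) = 𝔠 := by simp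
  obtain ⟨x⟩ : Nonempty (I ↪ (ℕ → Bool)) := by
    rw [← Cardinal.le_def, hc]; exact hI.le
  have key : ∀ S : Set I, ∃ D : Set (List Bool), ∀ i, (D ∩ adSet (x i)).Finite ↔ i ∈ S := by
    intro S
    obtain ⟨D, hD1, hD2⟩ := solovay hMA (I := S) (J := (Sᶜ : Set I))
      (lt_of_le_of_lt (Cardinal.mk_set_le _) hI) (lt_of_le_of_lt (Cardinal.mk_set_le _) hI)
      (fun i => adSet (x i)) (fun j => adSet (x j)) (by
        intro j F
        have hfin : (adSet (x j) ∩ ⋃ i ∈ F, adSet (x (i : S))).Finite := by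
          rw [Set.inter_iUnion₂]
          refine Set.Finite.biUnion (Finset.finite_toSet F) fun i _ => adSet_inter ?_
          intro h
          have := x.injective h
          exact j.2 (this ▸ i.2)
        have : adSet (x j) \ ⋃ i ∈ F, adSet (x (i : S)) =
          adSet (x j) \ (adSet (x j) ∩ ⋃ i ∈ F, adSet (x (i : S))) := by
            rw [Set.sdiff_self_inter]
        rw [this]
        exact (adSet_infinite _).sdiff hfin)
    refine ⟨D, fun i => ⟨fun h => ?_, fun h => hD1 ⟨i, h⟩⟩⟩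
    by_contra hi
    exact hD2 ⟨i, hi⟩ h
  choose D hD using key
  have hinj : Function.Injective D := by
    intro S S' h
    ext i
    rw [← hD S i, ← hD S' i, h]
  have := Cardinal.mk_le_of_injective hinj
  rw [Cardinal.mk_set, Cardinal.mk_set] at this
  refine this.trans ?_
  have : #(List Bool) ≤ ℵ₀ := Cardinal.mk_le_aleph0
  calc (2 : Cardinal.{0}) ^ #(List Bool) ≤ 2 ^ ℵ₀ := Cardinal.power_le_power_left two_ne_zero this
    _ = 𝔠 := Cardinal.two_power_aleph0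

/-- `𝔠 ^ κ ≤ 𝔠` for `κ < 𝔠`. -/
theorem continuum_power_le (hMA : MAsc) {I : Type} (hI : #I < 𝔠) : 𝔠 ^ #I ≤ 𝔠 := by
  have h1 : #(ℕ × I) < 𝔠 := by
    rw [Cardinal.mk_prod]
    simp only [Cardinal.lift_id, Cardinal.mk_eq_aleph0 ℕ]
    exact Cardinal.mul_lt_of_lt Cardinal.aleph0_le_continuum Cardinal.aleph0_lt_continuum hI
  have := two_power_le hMA h1
  rw [Cardinal.mk_prod, Cardinal.power_mul] at this
  simpa using this

/-- `𝔠` is regular. -/
theorem continuum_isRegular (hMA : MAsc) : (𝔠 : Cardinal.{0}).IsRegular := by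
  refine ⟨Cardinal.aleph0_le_continuum, ?_⟩
  by_contra hcon
  push Not at hcon
  have h1 : #((𝔠 : Cardinal.{0}).ord.cof.out) = (𝔠 : Cardinal.{0}).ord.cof := Cardinal.mk_out _
  have h2 := continuum_power_le hMA (I := ((𝔠 : Cardinal.{0}).ord.cof.out)) (by rw [h1]; exact hcon)
  rw [h1] at h2
  have h3 := Cardinal.lt_power_cof_ord (c := 𝔠) Cardinal.aleph0_le_continuum
  exact absurd h2 (not_le.2 h3)

end Pool.Agent.H32.PP
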