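import Pool.Agent.Helper11.PP.Inf

set_option autoImplicit false

/-!
# The Tukey lemma (module I8 of MP_505789_lc)
-/

namespace Pool.Agent.H32.PP

open Set Filter
open Pool.Agent.Helper11.PP (GoodUF TukeyMap ST_tukey)

/-- The monotone hull of `g`. -/
def phi (U : Ultrafilter (ℕ × ℕ)) (g : Set (ℕ × ℕ) → Set (ℕ × ℕ)) (A : Set (ℕ × ℕ)) :
    Set (ℕ × ℕ) := {q | ∃ B, B ∈ U ∧ B ⊆ A ∧ q ∈ g B}

/-- The points forced by `T`. -/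
def pinf (U : Ultrafilter (ℕ × ℕ)) (g : Set (ℕ × ℕ) → Set (ℕ × ℕ)) (T : Set (ℕ × ℕ))
    (q : ℕ × ℕ) : Prop := ∀ A ∈ U, q ∈ phi U g (T ∪ A)

theorem phi_mono (U : Ultrafilter (ℕ × ℕ)) (g : Set (ℕ × ℕ) → Set (ℕ × ℕ)) {A B : Set (ℕ × ℕ)}
    (h : A ⊆ B) : phi U g A ⊆ phi U g B := by
  rintro q ⟨C, hC, hCA, hq⟩
  exact ⟨C, hC, hCA.trans h, hq⟩

theorem pinf_mono (U : Ultrafilter (ℕ × ℕ)) (g : Set (ℕ × ℕ) → Set (ℕ × ℕ)) {A B : Set (ℕ × ℕ)}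
    (h : A ⊆ B) {q : ℕ × ℕ} (hq : pinf U g A q) : pinf U g B q := by
  intro C hC
  exact phi_mono U g (union_subset_union_left C h) (hq C hC)

theorem phi_mem {U V : Ultrafilter (ℕ × ℕ)} {g : Set (ℕ × ℕ) → Set (ℕ × ℕ)}
    (hg : TukeyMap U V g) {A : Set (ℕ × ℕ)} (hA : A ∈ U) : phi U g A ∈ V :=
  mem_of_superset (hg.1 A hA) (fun q hq => ⟨A, hA, Subset.rfl, hq⟩)

theorem phi_cofinal {U V : Ultrafilter (ℕ × ℕ)} {g : Set (ℕ × ℕ) → Set (ℕ × ℕ)}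
    (hg : TukeyMap U V g) {D : Set (ℕ × ℕ)} (hD : D ∈ V) : ∃ A ∈ U, phi U g A ⊆ D := by
  by_contra hcon
  push Not at hcon
  obtain ⟨C, hC, hCD⟩ := hg.2 {B | B ∈ U ∧ ¬ g B ⊆ D} (fun C hC => hC.1) (by
    intro A hA
    obtain ⟨q, ⟨B, hB, hBA, hq⟩, hqD⟩ := not_subset.1 (hcon A hA)
    exact ⟨B, ⟨hB, fun h => hqD (h hq)⟩, hBA⟩) D hD
  exact hC.2 hCD

theorem pp_count {U : Ultrafilter (ℕ × ℕ)}
    (hU : ∀ A : ℕ → Set (ℕ × ℕ), (∀ k, A k ∈ U) → ∃ B ∈ U, ∀ k, (B \ A k).Finite)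
    {ι : Type} [Countable ι] (A : ι → Set (ℕ × ℕ)) (hA : ∀ i, A i ∈ U) :
    ∃ B ∈ U, ∀ i, (B \ A i).Finite := by
  rcases isEmpty_or_nonempty ι with h | h
  · exact ⟨univ, univ_mem, fun i => (h.false i).elim⟩
  · obtain ⟨f, hf⟩ := exists_surjective_nat ι
    obtain ⟨B, hB, hBA⟩ := hU (fun k => A (f k)) (fun k => hA (f k))
    refine ⟨B, hB, fun i => ?_⟩
    obtain ⟨k, rfl⟩ := hf i
    exact hBA k

theorem fin_le {A : Set (ℕ × ℕ)} (h : ∀ n, {q | (n, q) ∈ A}.Finite) (m : ℕ) :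
    (A ∩ {z | z.1 ≤ m}).Finite := by
  refine Set.Finite.subset ((Set.finite_Iic m).biUnion (fun n _ => (h n).image (Prod.mk n))) ?_
  rintro ⟨a, b⟩ ⟨h1, h2⟩
  simp only [mem_iUnion, mem_image]
  exact ⟨a, h2, b, h1, rfl⟩

theorem bound_fst {F : Set (ℕ × ℕ)} (hF : F.Finite) : ∃ m, ∀ z ∈ F, z.1 ≤ m := by
  obtain ⟨m, hm⟩ := (hF.image Prod.fst).bddAbove
  exact ⟨m, fun z hz => hm ⟨z, hz, rfl⟩⟩

theorem exists_bound {ι : Type} (W : ι → Set (ℕ × ℕ)) (I : ℕ → Set ι) (hI : ∀ n, (I n).Finite)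
    (B : Set (ℕ × ℕ)) (hB : ∀ i, (B \ W i).Finite) :
    ∃ f : ℕ → ℕ, ∀ n, ∀ i ∈ I n, ∀ z ∈ B, f n < z.1 → z ∈ W i := by
  have h : ∀ n, ∃ m, ∀ z ∈ ⋃ i ∈ I n, (B \ W i), z.1 ≤ m := fun n =>
    bound_fst ((hI n).biUnion (fun i _ => hB i))
  choose f hf using h
  refine ⟨f, fun n i hi z hz hlt => ?_⟩
  by_contra hcon
  have := hf n z (by simp only [mem_iUnion]; exact ⟨i, hi, hz, hcon⟩)
  omega

theorem fin_sub {F : Set (ℕ × ℕ)} (hF : F.Finite) : {s : Finset (ℕ × ℕ) | (s : Set (ℕ × ℕ)) ⊆ F}.Finite := by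
  refine Set.Finite.subset (hF.toFinset.powerset.finite_toSet) ?_
  intro s hs
  simp only [Finset.coe_powerset, mem_preimage, mem_powerset_iff, Finite.coe_toFinset]
  exact hs

theorem free_gt {U0 : Ultrafilter ℕ} (h0 : GoodUF U0) {U : Ultrafilter (ℕ × ℕ)}
    (hU : U.map Prod.fst = U0) (m : ℕ) : {z : ℕ × ℕ | m < z.1} ∈ U := by
  have h := h0.free (m + 1)
  rw [← hU] at h
  exact h

theorem base_mem {U0 : Ultrafilter ℕ} {U : Ultrafilter (ℕ × ℕ)}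
    (hU : U.map Prod.fst = U0) {S : Set ℕ} (hS : S ∈ U0) : {z : ℕ × ℕ | z.1 ∈ S} ∈ U := by
  rw [← hU] at hS
  exact hS

theorem tukey : ST_tukey := by
  classical
  intro U0 h0 U V hUf hVf hUp hVp hUfin hVfin g hg
  obtain ⟨A0, hA0, hA0f⟩ := hUfin
  obtain ⟨D0, hD0, hD0f⟩ := hVfin
  -- Step 1
  have hc : ∀ p : Finset (ℕ × ℕ) × (ℕ × ℕ), ∃ A : Set (ℕ × ℕ), A ∈ U ∧
      (¬ pinf U g (p.1 : Set (ℕ × ℕ)) p.2 → p.2 ∉ phi U g ((p.1 : Set (ℕ × ℕ)) ∪ A)) := by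
    intro p
    by_cases hp : pinf U g (p.1 : Set (ℕ × ℕ)) p.2
    · exact ⟨univ, univ_mem, fun h => (h hp).elim⟩
    · unfold pinf at hp
      push Not at hp
      obtain ⟨A, hA, hA'⟩ := hp
      exact ⟨A, hA, fun _ => hA'⟩
  choose cA hcA hcA' using hc
  obtain ⟨As, hAs, hAs'⟩ := pp_count hUp cA hcA
  obtain ⟨f, hf⟩ := exists_bound cA
    (fun n => {s : Finset (ℕ × ℕ) | (s : Set (ℕ × ℕ)) ⊆ A0 ∩ {z | z.1 ≤ n}} ×ˢ (D0 ∩ {z | z.1 ≤ n}))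
    (fun n => (fin_sub (fin_le hA0f n)).prod (fin_le hD0f n)) As hAs'
  obtain ⟨S, hS, hSf⟩ := h0.sparse f
  set At : Set (ℕ × ℕ) := (As ∩ A0) ∩ {z | z.1 ∈ S} with hAt
  have hAtU : At ∈ U := inter_mem (inter_mem hAs hA0) (base_mem hUf hS)
  have claim1 : ∀ A', A' ⊆ At → ∀ n ∈ S, ∀ q ∈ D0, q.1 ≤ n → q ∈ phi U g A' →
      pinf U g (A' ∩ {z | z.1 ≤ n}) q := by
    intro A' hA' n hn q hq hqn hqA
    by_contra hcon
    have hfin : (A' ∩ {z : ℕ × ℕ | z.1 ≤ n}).Finite :=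
      (fin_le hA0f n).subset (fun z hz => ⟨(hA' hz.1).1.2, hz.2⟩)
    have h1 := hcA' (hfin.toFinset, q) (by simpa using hcon)
    apply h1
    refine phi_mono U g ?_ hqA
    intro z hz
    by_cases hzn : z.1 ≤ n
    · left
      simp only [Finite.coe_toFinset]
      exact ⟨hz, hzn⟩
    · right
      refine hf n (hfin.toFinset, q) ⟨?_, hq, hqn⟩ z (hA' hz).1.1 ?_
      · simp only [mem_ofPred_eq, Finite.coe_toFinset]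
        exact fun w hw => ⟨(hA' hw.1).1.2, hw.2⟩
      · exact hSf n hn z.1 (hA' hz).2 (by omega)
  -- Step 2
  have hd : ∀ s : Finset (ℕ × ℕ), ∃ D : Set (ℕ × ℕ), D ∈ V ∧
      ((∃ A ∈ U, ∃ m, ∀ q ∈ phi U g ((s : Set (ℕ × ℕ)) ∪ A), m < q.1 → q ∈ D) →
        ∀ D' ∈ V, ∃ A ∈ U, ∃ m, ∀ q ∈ phi U g ((s : Set (ℕ × ℕ)) ∪ A), m < q.1 → q ∈ D') := by
    intro s
    by_cases hs : ∀ D' ∈ V, ∃ A ∈ U, ∃ m, ∀ q ∈ phi U g ((s : Set (ℕ × ℕ)) ∪ A), m < q.1 → q ∈ D'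
    · exact ⟨univ, univ_mem, fun _ => hs⟩
    · have hs' := hs
      rw [not_forall] at hs'
      obtain ⟨D, hD⟩ := hs'
      rw [Classical.not_imp] at hD
      exact ⟨D, hD.1, fun h => (hD.2 h).elim⟩
  choose Ds hDs hDs' using hd
  obtain ⟨D, hD, hDD⟩ := pp_count hVp Ds hDs
  obtain ⟨A, hA, hAD⟩ := phi_cofinal hg (inter_mem hD hD0)
  set A1 : Set (ℕ × ℕ) := A ∩ At with hA1
  have hA1U : A1 ∈ U := inter_mem hA hAtU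
  have hA1f : ∀ n, {q | (n, q) ∈ A1}.Finite := fun n =>
    (hA0f n).subset (fun q hq => hq.2.1.2)
  have hgood : ∀ s : Finset (ℕ × ℕ), (s : Set (ℕ × ℕ)) ⊆ A1 →
      ∀ D' ∈ V, ∃ A ∈ U, ∃ m, ∀ q ∈ phi U g ((s : Set (ℕ × ℕ)) ∪ A), m < q.1 → q ∈ D' := by
    intro s hs
    apply hDs' s
    obtain ⟨m, hm⟩ := bound_fst (hDD s)
    refine ⟨A1, hA1U, m, fun q hq hmq => ?_⟩
    by_contra hcon
    have h1 : q ∈ D := by
      refine (hAD (phi_mono U g ?_ hq)).1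
      exact union_subset (hs.trans inter_subset_left) inter_subset_left
    have := hm q ⟨h1, hcon⟩
    omega
  -- Step 3
  set ps : Finset (ℕ × ℕ) → ℕ → Finset ℕ → Set ℕ := fun s n a =>
    {v | (n, v) ∈ D0 ∧ pinf U g ((s : Set (ℕ × ℕ)) ∪ {z | z.1 = n ∧ z.2 ∈ a}) (n, v)} with hps
  have hex : ∃ s : Finset (ℕ × ℕ), (s : Set (ℕ × ℕ)) ⊆ A1 ∧ ∀ B : ℕ → Finset ℕ,
      {z : ℕ × ℕ | z.2 ∈ B z.1} ⊆ A1 → {z : ℕ × ℕ | z.2 ∈ B z.1} ∈ U →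
        {z : ℕ × ℕ | z.2 ∈ ps s z.1 (B z.1)} ∈ V := by
    by_contra hcon
    push Not at hcon
    have hcon' : ∀ s : {s : Finset (ℕ × ℕ) // (s : Set (ℕ × ℕ)) ⊆ A1}, ∃ B : ℕ → Finset ℕ,
        {z : ℕ × ℕ | z.2 ∈ B z.1} ⊆ A1 ∧ {z : ℕ × ℕ | z.2 ∈ B z.1} ∈ U ∧
        {z : ℕ × ℕ | z.2 ∈ ps s.1 z.1 (B z.1)} ∉ V := fun s => hcon s.1 s.2
    choose Bs hBs1 hBsU hBsV using hcon'
    obtain ⟨A2, hA2, hA2'⟩ := pp_count hUp (fun s => {z : ℕ × ℕ | z.2 ∈ Bs s z.1}) hBsU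
    obtain ⟨E, hE, hE'⟩ := pp_count hVp
      (fun s : {s : Finset (ℕ × ℕ) // (s : Set (ℕ × ℕ)) ⊆ A1} =>
        {z : ℕ × ℕ | z.2 ∈ ps s.1 z.1 (Bs s z.1)}ᶜ)
      (fun s => Ultrafilter.compl_mem_iff_notMem.2 (hBsV s))
    have hIf : ∀ n, {s : {s : Finset (ℕ × ℕ) // (s : Set (ℕ × ℕ)) ⊆ A1} |
        (s.1 : Set (ℕ × ℕ)) ⊆ A1 ∩ {z | z.1 ≤ n}}.Finite := fun n =>
      Set.Finite.preimage (Subtype.val_injective.injOn) (fin_sub (fin_le hA1f n))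
    obtain ⟨f1, hf1⟩ := exists_bound (fun s => {z : ℕ × ℕ | z.2 ∈ Bs s z.1}) _ hIf A2 hA2'
    obtain ⟨f2, hf2⟩ := exists_bound
      (fun s : {s : Finset (ℕ × ℕ) // (s : Set (ℕ × ℕ)) ⊆ A1} =>
        {z : ℕ × ℕ | z.2 ∈ ps s.1 z.1 (Bs s z.1)}ᶜ) _ hIf E hE'
    obtain ⟨S', hS', hS'f⟩ := h0.sparse (fun n => max (f1 n) (f2 n))
    have hSS : S ∩ S' ∈ U0 := inter_mem hS hS'
    obtain ⟨m0, hm0⟩ : (S ∩ S').Nonempty := Filter.nonempty_of_mem hSS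
    set A3 : Set (ℕ × ℕ) := (A2 ∩ A1) ∩ {z | z.1 ∈ S ∩ S'} with hA3
    have hA3U : A3 ∈ U := inter_mem (inter_mem hA2 hA1U) (base_mem hUf hSS)
    have hbig : ((phi U g A3 ∩ E) ∩ D0) ∩ ({z | z.1 ∈ S ∩ S'} ∩ {z | m0 < z.1}) ∈ V :=
      inter_mem (inter_mem (inter_mem (phi_mem hg hA3U) hE) hD0)
        (inter_mem (base_mem hVf hSS) (free_gt h0 hVf m0))
    obtain ⟨⟨n, v⟩, ⟨⟨⟨hq1, hqE⟩, hqD0⟩, hqS, hqm0⟩⟩ := Filter.nonempty_of_mem hbig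
    have hqm0' : m0 < n := hqm0
    have hnS : n ∈ S ∩ S' := hqS
    obtain ⟨m, ⟨hm1, hm2⟩, hmax⟩ := Set.exists_max_image {m | m ∈ S ∩ S' ∧ m < n} id
      ((Set.finite_Iio n).subset (fun m hm => hm.2)) ⟨m0, hm0, hqm0'⟩
    have hA3fin : (A3 ∩ {z : ℕ × ℕ | z.1 < n}).Finite :=
      (fin_le hA0f n).subset (fun z hz => ⟨hz.1.1.2.2.1.2, show z.1 ≤ n from le_of_lt hz.2⟩)
    have hsub : ((hA3fin.toFinset : Finset (ℕ × ℕ)) : Set (ℕ × ℕ)) ⊆ A1 := by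
      simp only [Finite.coe_toFinset]
      exact fun z hz => hz.1.1.2
    set s : {s : Finset (ℕ × ℕ) // (s : Set (ℕ × ℕ)) ⊆ A1} := ⟨hA3fin.toFinset, hsub⟩ with hs
    have hsm : (s.1 : Set (ℕ × ℕ)) ⊆ A1 ∩ {z | z.1 ≤ m} := by
      intro z hz
      simp only [hs, Finite.coe_toFinset] at hz
      exact ⟨hz.1.1.2, hmax z.1 ⟨hz.1.2, hz.2⟩⟩
    have hgm := hS'f m hm1.2 n hnS.2 hm2
    have hgm' : max (f1 m) (f2 m) < n := hgm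
    have hnC : (n, v) ∈ {z : ℕ × ℕ | z.2 ∈ ps s.1 z.1 (Bs s z.1)}ᶜ :=
      hf2 m s hsm (n, v) hqE (lt_of_le_of_lt (le_max_right _ _) hgm')
    apply hnC
    refine ⟨hqD0, ?_⟩
    refine pinf_mono U g ?_ (claim1 A3 (fun z hz => hz.1.2.2) n hnS.1 (n, v) hqD0 le_rfl hq1)
    intro z hz
    by_cases hzn : z.1 < n
    · left
      simp only [hs, Finite.coe_toFinset]
      exact ⟨hz.1, hzn⟩
    · right
      have hz1 : z.1 = n := le_antisymm hz.2 (not_lt.1 hzn)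
      refine ⟨hz1, ?_⟩
      have h1 := hf1 m s hsm z hz.1.1.1
        (by rw [hz1]; exact lt_of_le_of_lt (le_max_left _ _) hgm')
      simp only [mem_ofPred_eq] at h1
      rw [hz1] at h1
      exact h1
  obtain ⟨s, hsA1, hsB⟩ := hex
  refine ⟨A1, ps s, hA1U, hA1f, ?_, hsB, ?_⟩
  · intro n a b hab v hv
    refine ⟨hv.1, pinf_mono U g (union_subset_union_right _ (show {z : ℕ × ℕ | z.1 = n ∧ z.2 ∈ a} ⊆
      {z | z.1 = n ∧ z.2 ∈ b} from fun z hz => ⟨hz.1, hab hz.2⟩)) hv.2⟩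
  · intro D' hD'
    obtain ⟨A', hA', m, hm⟩ := hgood s hsA1 D' hD'
    have hfinB : ∀ n, {q | (n, q) ∈ A' ∩ A1}.Finite := fun n => (hA1f n).subset (fun q hq => hq.2)
    have hBeq : {z : ℕ × ℕ | z.2 ∈ (hfinB z.1).toFinset} = A' ∩ A1 := by
      ext z
      simp
    refine ⟨fun n => (hfinB n).toFinset, ?_, ?_, m + 1, ?_⟩
    · rw [hBeq]
      exact inter_mem hA' hA1U
    · rw [hBeq]
      exact inter_subset_right
    · intro n hn v hv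
      refine hm (n, v) (phi_mono U g ?_ (hv.2 A' hA')) (by omega)
      intro z hz
      rcases hz with (hz | ⟨hz1, hz2⟩) | hz
      · exact Or.inl hz
      · right
        have h2 : z.2 ∈ (hfinB n).toFinset := hz2
        rw [Set.Finite.mem_toFinset] at h2
        have h3 : (n, z.2) ∈ A' := h2.1
        rw [← hz1] at h3
        exact h3
      · exact Or.inr hz

end Pool.Agent.H32.PP
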